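import Pool.Agent.Helper63.GW.StA
import Pool.Agent.Helper58.MR.VC5

set_option autoImplicit false

namespace Pool.Agent.Helper38.GW

open Finset
open Pool.Agent.Helper63.GW Pool.Agent.Helper23.GK
open Pool.MR (e norm_e second_diff norm_sum_e_neg)

private lemma term_eq (t θ : ℝ) (m k : ℕ) :
    cs t θ (m + k) * (starRingEnd ℂ) (cs t θ m) =
      e (-(t / (2 * Real.pi)) * (Real.log ((m : ℝ) + k + θ) - Real.log ((m : ℝ) + θ))) := by
  have hpi : Real.pi ≠ 0 := Real.pi_ne_zero
  unfold cs e
  rw [← Complex.exp_conj, ← Complex.exp_add, map_mul, Complex.conj_I, Complex.conj_ofReal]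
  congr 1
  have h1 : 2 * Real.pi * (-(t / (2 * Real.pi)) *
      (Real.log ((m : ℝ) + k + θ) - Real.log ((m : ℝ) + θ))) =
      -(t * (Real.log ((m : ℝ) + k + θ) - Real.log ((m : ℝ) + θ))) := by
    field_simp
  rw [h1]
  push_cast
  ring

/-- second difference of `x ↦ log (x + k) - log x` -/
private lemma diff2 (x k : ℝ) (hx : 1 ≤ x) (hk : 0 < k) :
    let u := x + 1
    let G := (Real.log (x + 2 + k) - Real.log (x + 2)) - (Real.log (x + 1 + k) - Real.log (x + 1)) -
      ((Real.log (x + 1 + k) - Real.log (x + 1)) - (Real.log (x + k) - Real.log x))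
    k * (2 * u + k) / (u ^ 2 * (u + k) ^ 2) ≤ G ∧
      G ≤ 4 / 3 * (k * (2 * u + k) / (u ^ 2 * (u + k) ^ 2)) := by
  intro u G
  have hu : 2 ≤ u := by simp only [u]; linarith
  have hu0 : 0 < u := by linarith
  set v : ℝ := u + k with hv
  have hv0 : 0 < v := by linarith
  have huv : u < v := by linarith
  have hx0 : 0 < x := by linarith
  set p : ℝ := 1 / v ^ 2 with hp
  set q : ℝ := 1 / u ^ 2 with hq
  have hp0 : 0 < p := by positivity
  have hpq : p < q := by
    rw [hp, hq]
    apply one_div_lt_one_div_of_lt (by positivity)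
    exact pow_lt_pow_left₀ huv hu0.le two_ne_zero
  have hq14 : q ≤ 1 / 4 := by
    rw [hq]
    apply one_div_le_one_div_of_le (by norm_num)
    nlinarith
  have hG : G = Real.log ((1 - p) / (1 - q)) := by
    have e1 : 1 - p = (x + k) * (x + 2 + k) / (x + 1 + k) ^ 2 := by
      have : v = x + 1 + k := by simp only [hv, u]
      rw [hp, this]
      have h0 : x + 1 + k ≠ 0 := by positivity
      field_simp
      ring
    have e2 : 1 - q = x * (x + 2) / (x + 1) ^ 2 := by
      rw [hq]
      simp only [u]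
      have h0 : x + 1 ≠ 0 := by positivity
      field_simp
      ring
    have h1 : 0 < x + k := by positivity
    have h2 : 0 < x + 2 + k := by positivity
    have h3 : 0 < x + 1 + k := by positivity
    have h4 : 0 < x + 2 := by positivity
    have h5 : 0 < x + 1 := by positivity
    rw [e1, e2, Real.log_div (by positivity) (by positivity),
      Real.log_div (by positivity) (by positivity), Real.log_div (by positivity) (by positivity),
      Real.log_mul h1.ne' h2.ne', Real.log_mul hx0.ne' h4.ne', Real.log_pow, Real.log_pow]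
    simp only [G]
    push_cast
    ring
  have hqp : q - p = k * (2 * u + k) / (u ^ 2 * (u + k) ^ 2) := by
    rw [hq, hp, hv]
    have h1 : u + k ≠ 0 := by positivity
    field_simp
    ring
  rw [hG, ← hqp]
  have hz : (1 - p) / (1 - q) = 1 + (q - p) / (1 - q) := by
    have : 1 - q ≠ 0 := by linarith
    field_simp
    ring
  have hr0 : 0 < (1 - p) / (1 - q) := div_pos (by linarith) (by linarith)
  constructor
  · -- log r ≥ 1 - 1/r
    have h1 := Real.one_sub_inv_le_log_of_pos hr0
    have h2 : 1 - ((1 - p) / (1 - q))⁻¹ = (q - p) / (1 - p) := by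
      rw [inv_div]
      have : 1 - p ≠ 0 := by linarith
      field_simp
      ring
    rw [h2] at h1
    refine le_trans ?_ h1
    rw [le_div_iff₀ (by linarith)]
    nlinarith
  · have h1 := Real.log_le_sub_one_of_pos hr0
    rw [hz] at h1 ⊢
    refine h1.trans ?_
    rw [add_sub_cancel_left, div_le_iff₀ (by linarith)]
    nlinarith

/-- module SMD -/
theorem hSMD : StSmd := by
  refine ⟨300000, by norm_num, ?_⟩
  intro N N' k t θ hN hNN' hN' hk hk8 hθ0 hθ1 ht
  have hpi := Real.pi_pos
  have hpi3 := Real.pi_gt_three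
  have hpi4 := Real.pi_lt_four
  have hNr : (1 : ℝ) ≤ N := by exact_mod_cast hN
  have hN0 : (0 : ℝ) < N := by linarith
  have hkr : (1 : ℝ) ≤ k := by exact_mod_cast hk
  have hk0 : (0 : ℝ) < k := by linarith
  have hkr8 : (k : ℝ) ≤ 8 * N := by exact_mod_cast hk8
  have ht0 : 0 < |t| := by linarith
  set S : ℂ := ∑ m ∈ Ioc N N', cs t θ (m + k) * (starRingEnd ℂ) (cs t θ m) with hS
  have hs1 : 0 ≤ √(|t| * k / N) := Real.sqrt_nonneg _
  have hs2 : 0 ≤ √((N : ℝ) ^ 3 / (|t| * k)) := Real.sqrt_nonneg _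
  have htriv : ‖S‖ ≤ 8 * N := by
    rw [hS]
    refine (norm_sum_le _ _).trans ?_
    have h1 : ∀ m ∈ Ioc N N', ‖cs t θ (m + k) * (starRingEnd ℂ) (cs t θ m)‖ = 1 := by
      intro m _
      rw [term_eq, norm_e]
    rw [sum_congr rfl h1]
    simp only [sum_const, nsmul_eq_mul, mul_one, Nat.card_Ioc]
    have : N' - N ≤ 8 * N := by omega
    exact_mod_cast this
  set L : ℝ := |t| * k with hL
  have hL0 : 0 < L := by positivity
  set lam : ℝ := L / (3600 * Real.pi * N ^ 3) with hlam
  have hlam0 : 0 < lam := by positivity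
  have hred : ‖S‖ = ‖∑ n ∈ range (N' - N), e ((|t| / (2 * Real.pi)) *
      (Real.log (((N + 1 + n : ℕ) : ℝ) + k + θ) - Real.log (((N + 1 + n : ℕ) : ℝ) + θ)))‖ := by
    rw [hS]
    have h1 : Ioc N N' = Ico (N + 1) (N' + 1) := by ext m; simp only [mem_Ioc, mem_Ico]; omega
    rw [h1, Finset.sum_Ico_eq_sum_range, show N' + 1 - (N + 1) = N' - N by omega]
    simp only [term_eq]
    rcases abs_choice t with h | h
    · rw [h, ← norm_sum_e_neg]
      congr 1; apply sum_congr rfl; intro n _; congr 1; ring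
    · rw [h]
      congr 1; apply sum_congr rfl; intro n _; congr 1; ring
  have hNlam : lam * N ^ 3 ≤ L := by
    rw [hlam, div_mul_eq_mul_div, div_le_iff₀ (by positivity)]
    have h1 : (1 : ℝ) ≤ 3600 * Real.pi := by linarith
    have h2 : 0 ≤ L * N ^ 3 := by positivity
    nlinarith
  rcases le_or_gt lam 1 with hle | hgt
  · have hsd := second_diff (fun n => (|t| / (2 * Real.pi)) *
      (Real.log (((N + 1 + n : ℕ) : ℝ) + k + θ) - Real.log (((N + 1 + n : ℕ) : ℝ) + θ)))
      (N' - N) lam 4800 hlam0 (by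
      intro n hn
      set x : ℝ := (N : ℝ) + 1 + n + θ with hx
      have hn0 : (0 : ℝ) ≤ n := by positivity
      have hn1 : (N : ℝ) + 1 + n ≤ 8 * N := by
        have : N + 1 + n ≤ 8 * N := by omega
        exact_mod_cast this
      have hxN : (N : ℝ) + 1 ≤ x := by linarith
      have hxN8 : x ≤ 8 * N + 1 := by linarith
      obtain ⟨hlo, hup⟩ := diff2 x k (by linarith) hk0
      set u : ℝ := x + 1 with hu
      have huN : (N : ℝ) ≤ u := by linarith
      have hu0 : 0 < u := by linarith
      have hu10 : u ≤ 10 * N := by linarith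
      set w : ℝ := k * (2 * u + k) / (u ^ 2 * (u + k) ^ 2) with hw
      have huk0 : 0 < u + k := by linarith
      have hw1 : (k : ℝ) / (1800 * N ^ 3) ≤ w := by
        rw [hw, div_le_div_iff₀ (by positivity) (by positivity)]
        have h1 : u ^ 2 ≤ (10 * N) ^ 2 := pow_le_pow_left₀ hu0.le hu10 2
        have h2 : u + k ≤ 18 * N := by linarith
        have h3 : u ^ 2 * (u + k) ≤ (10 * (N : ℝ)) ^ 2 * (18 * N) :=
          mul_le_mul h1 h2 huk0.le (by positivity)
        have h4 : u ^ 2 * (u + k) ^ 2 ≤ 1800 * (N : ℝ) ^ 3 * (u + k) := by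
          nlinarith
        have h5 : 1800 * (N : ℝ) ^ 3 * (u + k) ≤ 1800 * (N : ℝ) ^ 3 * (2 * u + k) :=
          mul_le_mul_of_nonneg_left (by linarith) (by positivity)
        calc (k : ℝ) * (u ^ 2 * (u + k) ^ 2) ≤ k * (1800 * (N : ℝ) ^ 3 * (2 * u + k)) :=
              mul_le_mul_of_nonneg_left (h4.trans h5) hk0.le
          _ = k * (2 * u + k) * (1800 * (N : ℝ) ^ 3) := by ring
      have hw2 : w ≤ 2 * k / N ^ 3 := by
        rw [hw, div_le_div_iff₀ (by positivity) (by positivity)]
        have h1 : (N : ℝ) ^ 2 ≤ u ^ 2 := pow_le_pow_left₀ hN0.le huN 2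
        have h2 : (N : ℝ) ≤ u + k := by linarith
        have h3 : (N : ℝ) ^ 2 * N ≤ u ^ 2 * (u + k) := mul_le_mul h1 h2 hN0.le (by positivity)
        have h4 : (2 * u + k) * (N : ℝ) ^ 3 ≤ 2 * (u + k) * (u ^ 2 * (u + k)) := by
          have h5 : (2 * u + k) ≤ 2 * (u + k) := by linarith
          calc (2 * u + k) * (N : ℝ) ^ 3 = (2 * u + k) * ((N : ℝ) ^ 2 * N) := by ring
            _ ≤ 2 * (u + k) * (u ^ 2 * (u + k)) := mul_le_mul h5 h3 (by positivity) (by positivity)
        calc k * (2 * u + k) * (N : ℝ) ^ 3 = k * ((2 * u + k) * (N : ℝ) ^ 3) := by ring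
          _ ≤ k * (2 * (u + k) * (u ^ 2 * (u + k))) := mul_le_mul_of_nonneg_left h4 hk0.le
          _ = 2 * k * (u ^ 2 * (u + k) ^ 2) := by ring
      set G : ℝ := (Real.log (x + 2 + k) - Real.log (x + 2)) -
        (Real.log (x + 1 + k) - Real.log (x + 1)) -
        ((Real.log (x + 1 + k) - Real.log (x + 1)) - (Real.log (x + k) - Real.log x)) with hG
      have hGlo : w ≤ G := hlo
      have hGup : G ≤ 4 / 3 * w := hup
      have hy0 : 0 < |t| / (2 * Real.pi) := by positivity
      have hlameq : lam = |t| / (2 * Real.pi) * (k / (1800 * N ^ 3)) := by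
        rw [hlam, hL]
        field_simp
        ring
      have heq : (|t| / (2 * Real.pi)) *
          (Real.log (((N + 1 + (n + 2) : ℕ) : ℝ) + k + θ) -
            Real.log (((N + 1 + (n + 2) : ℕ) : ℝ) + θ)) -
          (|t| / (2 * Real.pi)) *
          (Real.log (((N + 1 + (n + 1) : ℕ) : ℝ) + k + θ) -
            Real.log (((N + 1 + (n + 1) : ℕ) : ℝ) + θ)) -
          ((|t| / (2 * Real.pi)) *
          (Real.log (((N + 1 + (n + 1) : ℕ) : ℝ) + k + θ) -
            Real.log (((N + 1 + (n + 1) : ℕ) : ℝ) + θ)) -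
          (|t| / (2 * Real.pi)) *
          (Real.log (((N + 1 + n : ℕ) : ℝ) + k + θ) -
            Real.log (((N + 1 + n : ℕ) : ℝ) + θ))) = (|t| / (2 * Real.pi)) * G := by
        have a1 : ((N + 1 + (n + 2) : ℕ) : ℝ) + k + θ = x + 2 + k := by push_cast; rw [hx]; ring
        have a2 : ((N + 1 + (n + 2) : ℕ) : ℝ) + θ = x + 2 := by push_cast; rw [hx]; ring
        have a3 : ((N + 1 + (n + 1) : ℕ) : ℝ) + k + θ = x + 1 + k := by push_cast; rw [hx]; ring
        have a4 : ((N + 1 + (n + 1) : ℕ) : ℝ) + θ = x + 1 := by push_cast; rw [hx]; ring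
        have a5 : ((N + 1 + n : ℕ) : ℝ) + k + θ = x + k := by push_cast; rw [hx]; ring
        have a6 : ((N + 1 + n : ℕ) : ℝ) + θ = x := by push_cast; rw [hx]
        rw [a1, a2, a3, a4, a5, a6, hG]
        ring
      show lam ≤ _ ∧ _ ≤ _
      rw [heq]
      constructor
      · rw [hlameq]
        exact mul_le_mul_of_nonneg_left (hw1.trans hGlo) hy0.le
      · rw [hlameq]
        have h1 : G ≤ 4800 * (k / (1800 * N ^ 3)) := by
          refine hGup.trans ((mul_le_mul_of_nonneg_left hw2 (by norm_num)).trans (le_of_eq ?_))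
          field_simp
          ring
        calc |t| / (2 * Real.pi) * G ≤ |t| / (2 * Real.pi) * (4800 * (k / (1800 * N ^ 3))) :=
              mul_le_mul_of_nonneg_left h1 hy0.le
          _ = 4800 * (|t| / (2 * Real.pi) * (k / (1800 * N ^ 3))) := by ring)
    rw [hred]
    refine hsd.trans ?_
    have hM : ((N' - N : ℕ) : ℝ) ≤ 8 * N := by
      have : N' - N ≤ 8 * N := by omega
      exact_mod_cast this
    have hsl0 : 0 < √lam := Real.sqrt_pos.2 hlam0
    have hsl1 : √lam ≤ 1 := Real.sqrt_le_one.2 hle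
    have hsq : √lam * √lam = lam := Real.mul_self_sqrt hlam0.le
    have h1 : 5 / √lam + 1 ≤ 6 / √lam := by
      have : 1 ≤ 1 / √lam := by rw [le_div_iff₀ hsl0]; linarith
      have h2 : 6 / √lam = 5 / √lam + 1 / √lam := by ring
      linarith
    have h2 : 4800 * lam * ((N' - N : ℕ) : ℝ) + 2 ≤ 38400 * (lam * N) + 2 := by
      have := mul_le_mul_of_nonneg_left hM (by positivity : 0 ≤ 4800 * lam)
      linarith
    have h3 : (4800 * lam * ((N' - N : ℕ) : ℝ) + 2) * (5 / √lam + 1) ≤
        (38400 * (lam * N) + 2) * (6 / √lam) :=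
      mul_le_mul h2 h1 (by positivity) (by positivity)
    have h4 : (38400 * (lam * N) + 2) * (6 / √lam) = 230400 * (N * √lam) + 12 * (1 / √lam) := by
      have : lam = √lam * √lam := hsq.symm
      field_simp
      rw [show √lam ^ 2 = lam from Real.sq_sqrt hlam0.le]
      ring
    have h5 : N * √lam ≤ √(L / N) := by
      apply Real.le_sqrt_of_sq_le
      rw [mul_pow, Real.sq_sqrt hlam0.le, le_div_iff₀ hN0]
      calc (N : ℝ) ^ 2 * lam * N = lam * N ^ 3 := by ring
        _ ≤ L := hNlam
    have h6 : 1 / √lam ≤ 120 * √((N : ℝ) ^ 3 / L) := by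
      have h7 : 1 / √lam = √(1 / lam) := by rw [Real.sqrt_div zero_le_one, Real.sqrt_one]
      rw [h7]
      have h8 : (120 : ℝ) = √(120 ^ 2) := by rw [Real.sqrt_sq (by norm_num)]
      rw [h8, ← Real.sqrt_mul (by positivity)]
      apply Real.sqrt_le_sqrt
      rw [hlam, one_div_div, mul_div_assoc']
      apply div_le_div_of_nonneg_right _ hL0.le
      have : 0 < (N : ℝ) ^ 3 := by positivity
      nlinarith
    linarith
  · have h1 : (N : ℝ) ^ 3 ≤ L := by
      have h2 : (N : ℝ) ^ 3 ≤ lam * N ^ 3 := by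
        have : 0 < (N : ℝ) ^ 3 := by positivity
        nlinarith
      linarith
    have h2 : (N : ℝ) ≤ √(L / N) := by
      apply Real.le_sqrt_of_sq_le
      rw [le_div_iff₀ hN0]
      calc (N : ℝ) ^ 2 * N = N ^ 3 := by ring
        _ ≤ L := h1
    linarith

end Pool.Agent.Helper38.GW
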